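import Pool.Agent.AEN.Stmts

/-!
# Anderson model, the cheap end: row CON

The lattice is connected.
-/

set_option autoImplicit false

namespace Pool.Agent.AEN.H72

open Pool.Agent.Anderson

private theorem step (d : ℕ) (P : Site d → Prop)
    (h : ∀ (x : Site d) (i : Fin d), P x ↔ P (x + Pi.single i 1)) (i : Fin d) (n : ℤ) :
    ∀ x : Site d, P x ↔ P (x + Pi.single i n) := by
  induction n using Int.induction_on with
  | zero => intro x; simp
  | succ k ih =>
    intro x
    have h1 := h (x + Pi.single i (k : ℤ)) i
    rw [add_assoc, ← Pi.single_add] at h1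
    exact (ih x).trans h1
  | pred k ih =>
    intro x
    have h1 := h (x + Pi.single i (-(k : ℤ) - 1)) i
    rw [add_assoc, ← Pi.single_add, sub_add_cancel] at h1
    exact (ih x).trans h1.symm

theorem con : ConStmt := by
  intro d P h x y
  have key : ∀ (s : Finset (Fin d)) (x : Site d),
      P x ↔ P (x + ∑ i ∈ s, Pi.single i ((y - x) i)) := by
    intro s x
    have gen : ∀ (v : Site d), P x ↔ P (x + ∑ i ∈ s, Pi.single i (v i)) := by
      intro v
      induction s using Finset.induction_on with
      | empty => simp
      | insert i s his ih =>
        rw [Finset.sum_insert his]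
        have h1 := step d P h i (v i) (x + ∑ j ∈ s, Pi.single j (v j))
        rw [add_assoc] at h1
        have h2 : (∑ j ∈ s, (Pi.single j (v j) : Site d)) + Pi.single i (v i)
            = Pi.single i (v i) + ∑ j ∈ s, (Pi.single j (v j) : Site d) := add_comm _ _
        rw [h2] at h1
        exact ih.trans h1
    exact gen _
  have := key Finset.univ x
  rw [Finset.univ_sum_single] at this
  simpa using this

end Pool.Agent.AEN.H72
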